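import Pool.Agent.Helper26.LN6.Vm
import Pool.Agent.Helper26.LN6.Cls
import Pool.Agent.Helper91.LN6.B4

/-!
LN6, leaf E2': the level of the disc of `m` points from the nearness of the largest classes of `s 0, ..., s (m-2)`;
`SLV b (k - 1)` for `k ≥ 6`.
-/

open scoped Classical
open Finset

namespace LN6

namespace WSys

variable {k : ℕ} {Γ F : Type} [Group Γ] [MulAction Γ F] {W : WSys k Γ F} {b : ℝ}

/-- `x`, `y` are `b`-near for `v (T m)` -/
def Nr (W : WSys k Γ F) (b : ℝ) (m : ℕ) (x y : F) : Prop := W.R x y ∧ (x = y ∨ b ≤ W.v (W.T m) x y)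

theorem Nr.refl' (m : ℕ) (x : F) : W.Nr b m x x := ⟨W.R_refl x, Or.inl rfl⟩

theorem Nr.symm' {m : ℕ} {x y : F} (h : W.Nr b m x y) : W.Nr b m y x := by
  refine ⟨W.R_symm h.1, ?_⟩
  rcases h.2 with h | h
  · exact Or.inl h.symm
  · exact Or.inr (by rw [W.v_symm]; exact h)

theorem Ax.Nr_trans (A : W.Ax b) {m : ℕ} (h2 : 2 ≤ m) (hm : m < k) {x y z : F} (hxy : W.Nr b m x y)
    (hyz : W.Nr b m y z) : W.Nr b m x z := by
  refine ⟨W.R_trans hxy.1 hyz.1, ?_⟩
  by_cases h3 : x = z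
  · exact Or.inl h3
  by_cases h1 : x = y
  · subst h1
    exact hyz.2
  by_cases h4 : y = z
  · subst h4
    exact hxy.2
  have u := A.ultra m h2 hm x y z hxy.1 hyz.1 h1 h4 h3
  exact Or.inr ((le_min (hxy.2.resolve_left h1) (hyz.2.resolve_left h4)).trans u)

theorem Nr_smul {m : ℕ} (hm : m ≤ k) {g : Γ} (hg : g ∈ W.Bm m) {x y : F} (h : W.Nr b m x y) :
    W.Nr b m (g • x) (g • y) := by
  refine ⟨W.R_smul g h.1, ?_⟩
  by_cases h1 : x = y
  · exact Or.inl (by rw [h1])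
  · right
    rw [T_smul_Bm hm hg h.1 h1]
    exact h.2.resolve_left h1

section
variable [Fintype F]

/-- the general step: if the largest classes of all `s i` in the disc are near the one of `s 0` then the level is
at least `b` on the union of the largest classes of all arcs in the disc -/
theorem SLV_of_near (A : W.Ax b) (m : ℕ) (h3 : 3 ≤ m) (hm : m < k)
    (hP : ∀ i, i + 1 < m → ∀ x ∈ W.B (W.s i), ∀ y ∈ W.B (W.s 0), W.R x y → W.Nr b m x y) : W.SLV b m := by
  have hmk := hm.le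
  -- the translates
  have key : ∀ g ∈ W.Bm m, ∀ x ∈ W.B (W.s 0), ∀ y ∈ W.B (W.s 0), W.R (g • x) y → W.Nr b m (g • x) y := by
    intro g hg
    refine Subgroup.closure_induction (p := fun g _ => ∀ x ∈ W.B (W.s 0), ∀ y ∈ W.B (W.s 0), W.R (g • x) y →
      W.Nr b m (g • x) y) ?_ ?_ ?_ ?_ hg
    · rintro _ ⟨i, hi, rfl⟩ x hx y hy hR
      obtain ⟨w, hw, hRw⟩ := A.exists_B (W.arc_s i (by omega)) x
      have h1 : W.Nr b m w x := hP i hi w hw x hx (W.R_symm hRw)
      have h2 : W.Nr b m (W.s i • w) (W.s i • x) := Nr_smul hmk (W.s_mem_Bm hi) h1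
      have h4 : W.s i • w ∈ W.B (W.s i) := (B_smul rfl w).2 hw
      have h5 : W.Nr b m (W.s i • w) y := hP i hi _ h4 y hy (W.R_trans h2.1 hR)
      exact A.Nr_trans (by omega) hm h2.symm' h5
    · intro x hx y hy hR
      rw [one_smul] at hR ⊢
      exact hP 0 (by omega) x hx y hy hR
    · intro g h hg' _ ihg ihh x hx y hy hR
      obtain ⟨w, hw, hRw⟩ := A.exists_B W.arc_s0 (h • x)
      have h1 : W.Nr b m (h • x) w := ihh x hx w hw hRw
      have h2 : W.Nr b m (g • h • x) (g • w) := Nr_smul hmk hg' h1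
      rw [mul_smul] at hR ⊢
      have h4 : W.Nr b m (g • w) y := ihg w hw y hy (W.R_trans (W.R_symm h2.1) hR)
      exact A.Nr_trans (by omega) hm h2 h4
    · intro g hg' ihg x hx y hy hR
      have h1 : W.R (g • y) x := by
        have := W.R_smul g hR
        rw [smul_inv_smul] at this
        exact W.R_symm this
      have h2 := Nr_smul hmk (inv_mem hg') (ihg y hy x hx h1)
      rw [inv_smul_smul] at h2
      exact h2.symm'
  rintro x y ⟨g, hg, hx⟩ ⟨h, hh, hy⟩ hR hn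
  rw [B_conj'] at hx hy
  obtain ⟨w, hw, hRw⟩ := A.exists_B W.arc_s0 x
  have h1 : W.Nr b m (g • g⁻¹ • x) w := key g hg _ hx w hw (by rw [smul_inv_smul]; exact hRw)
  have h2 : W.Nr b m (h • h⁻¹ • y) w := key h hh _ hy w hw (by
    rw [smul_inv_smul]
    exact W.R_trans (W.R_symm hR) hRw)
  rw [smul_inv_smul] at h1 h2
  exact ((A.Nr_trans (by omega) hm h1 h2.symm').2).resolve_left hn

/-- `b`-nearness inside the largest class of `s 0` from `SV` -/
theorem near_zero (A : W.Ax b) (hF2 : W.SF2) (hOne : W.SOne) (hSV : W.SV b) (m : ℕ) (h4 : 4 ≤ m) (hm : m < k)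
    {x y : F} (hx : x ∈ W.B (W.s 0)) (hy : y ∈ W.B (W.s 0)) (hR : W.R x y) : W.Nr b m x y := by
  refine ⟨hR, ?_⟩
  by_cases hne : x = y
  · exact Or.inl hne
  right
  obtain ⟨z, hz, hRz⟩ := A.exists_B (W.arc_s 2 (by omega)) x
  have hE : W.E (W.s 0) x y := hOne x y hx hy hR
  have hzE : ¬ W.E (W.s 0) x z := fun h => hF2 z (A.B_of_E W.arc_s0 h hx) hz
  have h1 : W.v (W.T m) x z ≤ W.v (W.T m) x y := A.nest_le (by omega) hm (by omega) hE hne hRz hzE
  rw [hSV m h4 hm x hx z hz hRz] at h1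
  exact h1

/-- `b`-nearness for two disjoint arcs in the disc from `SV` -/
theorem near_conj (hSV : W.SV b) (m : ℕ) (h4 : 4 ≤ m) (hm : m < k) {g : Γ} (hg : g ∈ W.Bm m) {h h' : Γ}
    (e : h = g * W.s 0 * g⁻¹) (e' : h' = g * W.s 2 * g⁻¹) {x y : F} (hx : x ∈ W.B h) (hy : y ∈ W.B h')
    (hR : W.R x y) : W.Nr b m x y := by
  refine ⟨hR, ?_⟩
  by_cases hne : x = y
  · exact Or.inl hne
  right
  subst e e'
  rw [B_conj'] at hx hy
  have h1 := hSV m h4 hm _ hx _ hy (W.R_smul _ hR)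
  rw [T_smul_Bm hm.le (inv_mem hg) hR hne] at h1
  exact h1.ge

omit [Fintype F] in
/-- `s (i + 2)` as a conjugate of `s 2` by an element that commutes with `s 0` -/
theorem conj_s2 (W : WSys k Γ F) (i : ℕ) (hi : i + 3 < k) :
    ∃ g ∈ W.Bm (i + 4), W.s 0 = g * W.s 0 * g⁻¹ ∧ W.s (i + 2) = g * W.s 2 * g⁻¹ := by
  induction i with
  | zero => exact ⟨1, one_mem _, by simp, by simp⟩
  | succ i ih =>
    obtain ⟨g, hg, h0, h2⟩ := ih (by omega)
    refine ⟨W.s (i + 2) * W.s (i + 3) * g, mul_mem (mul_mem (W.s_mem_Bm (by omega)) (W.s_mem_Bm (by omega)))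
      (W.Bm_mono (by omega) hg), ?_, ?_⟩
    · have hc : Commute (W.s (i + 2) * W.s (i + 3)) (W.s 0) :=
        (W.commute_s 0 (i + 2) (by omega) (by omega)).symm.mul_left (W.commute_s 0 (i + 3) (by omega) (by omega)).symm
      calc W.s 0 = (W.s (i + 2) * W.s (i + 3)) * W.s 0 * (W.s (i + 2) * W.s (i + 3))⁻¹ := by
            rw [hc.eq]
            group
        _ = (W.s (i + 2) * W.s (i + 3)) * (g * W.s 0 * g⁻¹) * (W.s (i + 2) * W.s (i + 3))⁻¹ := by rw [← h0]
        _ = _ := by group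
    · calc W.s (i + 1 + 2) = (W.s (i + 2) * W.s (i + 3)) * W.s (i + 2) * (W.s (i + 2) * W.s (i + 3))⁻¹ :=
            W.s_conj (i + 2) (by omega)
        _ = (W.s (i + 2) * W.s (i + 3)) * (g * W.s 2 * g⁻¹) * (W.s (i + 2) * W.s (i + 3))⁻¹ := by rw [← h2]
        _ = _ := by group

/-- (LV) for the disc of `m ≥ 5` points -/
theorem SLV_of_five (A : W.Ax b) (hF2 : W.SF2) (hOne : W.SOne) (hSV : W.SV b) (m : ℕ) (h5 : 5 ≤ m) (hm : m < k) :
    W.SLV b m := by
  -- `s i`, `i ≥ 2`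
  have h2 : ∀ i, i + 3 < m → ∀ x ∈ W.B (W.s (i + 2)), ∀ y ∈ W.B (W.s 0), W.R x y → W.Nr b m x y := by
    intro i hi x hx y hy hR
    obtain ⟨g, hg, e0, e2⟩ := W.conj_s2 i (by omega)
    exact (near_conj hSV m (by omega) hm (W.Bm_mono (by omega) hg) e0 e2 hy hx (W.R_symm hR)).symm'
  refine SLV_of_near A m (by omega) hm ?_
  intro i hi x hx y hy hR
  rcases i with _ | _ | i
  · exact near_zero A hF2 hOne hSV m (by omega) hm hx hy hR
  · -- `s 1`: through `s 3`
    obtain ⟨w, hw, hRw⟩ := A.exists_B (W.arc_s 3 (by omega)) x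
    have e1 : W.s 1 = W.up 0 4 * W.s 0 * (W.up 0 4)⁻¹ := by
      have h := W.upB_shift 0 4 0 (by omega) (by omega)
      simp only [Nat.zero_add, Nat.add_zero] at h
      rw [h]
      group
    have e3 : W.s 3 = W.up 0 4 * W.s 2 * (W.up 0 4)⁻¹ := by
      have h := W.upB_shift 0 4 2 (by omega) (by omega)
      simp only [Nat.zero_add] at h
      rw [h]
      group
    have h1 : W.Nr b m x w := near_conj hSV m (by omega) hm (W.upB_mem_Bm (by omega)) e1 e3 hx hw hRw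
    have h3 : W.Nr b m w y := h2 1 (by omega) w hw y hy (W.R_trans (W.R_symm hRw) hR)
    exact A.Nr_trans (by omega) hm h1 h3
  · exact h2 i (by omega) x hx y hy hR

/-- (LV) for `m = k - 1`, `k ≥ 6` -/
theorem SLV_last_of (A : W.Ax b) (hF2 : W.SF2) (hOne : W.SOne) (hSV : W.SV b) (hk : 6 ≤ k) :
    W.SLV b (k - 1) :=
  SLV_of_five A hF2 hOne hSV (k - 1) (by omega) (by omega)

end

end WSys

end LN6
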