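import Pool.Agent.Helper91.LN6.Braid

/-!
LN6, leaf B3: the rotation `rho = lam 2 * s 2 * ... * s (k-2)` and the polygon `a j = rho ^ j * s 2 * rho ^ (-j)`
(group theory only).
-/

namespace LN6

namespace WSys

variable {k : ℕ} {Γ F : Type} [Group Γ] [MulAction Γ F]

/-! ### words -/

theorem up_zero (W : WSys k Γ F) (i : ℕ) : W.up i 0 = 1 := rfl

theorem up_succ (W : WSys k Γ F) (i n : ℕ) : W.up i (n + 1) = W.up i n * W.s (i + n) := rfl

theorem up_succ' (W : WSys k Γ F) (i n : ℕ) : W.up i (n + 1) = W.s i * W.up (i + 1) n := by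
  induction n with
  | zero => simp [up]
  | succ n ih =>
    rw [up_succ, ih, up_succ, ← mul_assoc]
    congr 2
    omega

/-- an element that commutes with the letters commutes with `up` -/
theorem commute_upR (W : WSys k Γ F) {t : Γ} (i n : ℕ) (h : ∀ j, i ≤ j → j < i + n → Commute t (W.s j)) :
    Commute t (W.up i n) := by
  induction n with
  | zero => exact Commute.one_right t
  | succ n ih =>
    rw [up_succ]
    exact (ih fun j h1 h2 => h j h1 (by omega)).mul_right (h (i + n) (by omega) (by omega))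

/-- `up a n * s i = s (i + 1) * up a n` -/
theorem up_mul_s (W : WSys k Γ F) (a n i : ℕ) (ha : a ≤ i) (hi : i + 1 < a + n) (hk : a + n ≤ k - 1) :
    W.up a n * W.s i = W.s (i + 1) * W.up a n := by
  induction n with
  | zero => omega
  | succ n ih =>
    rcases Nat.lt_or_ge (i + 1) (a + n) with h | h
    · have hc : Commute (W.s i) (W.s (a + n)) := W.commute_s i (a + n) (by omega) (by omega)
      rw [up_succ, mul_assoc, ← hc.eq, ← mul_assoc, ih h (by omega), mul_assoc]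
    · obtain ⟨n', rfl⟩ : ∃ n', n = n' + 1 := ⟨n - 1, by omega⟩
      obtain rfl : i = a + n' := by omega
      have hc : Commute (W.s (a + n' + 1)) (W.up a n') :=
        W.commute_upR a n' fun j h1 h2 => (W.commute_s j (a + n' + 1) (by omega) (by omega)).symm
      have hb := W.braid (a + n') (by omega)
      have e : a + (n' + 1) = a + n' + 1 := by omega
      rw [up_succ, up_succ, e]
      calc W.up a n' * W.s (a + n') * W.s (a + n' + 1) * W.s (a + n')
          = W.up a n' * (W.s (a + n') * W.s (a + n' + 1) * W.s (a + n')) := by simp only [mul_assoc]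
        _ = W.up a n' * (W.s (a + n' + 1) * W.s (a + n') * W.s (a + n' + 1)) := by rw [hb]
        _ = W.up a n' * W.s (a + n' + 1) * W.s (a + n') * W.s (a + n' + 1) := by simp only [mul_assoc]
        _ = W.s (a + n' + 1) * W.up a n' * W.s (a + n') * W.s (a + n' + 1) := by rw [hc.eq]
        _ = _ := by simp only [mul_assoc]

/-- `rr n = lam 2 * s 2 * ... * s (n + 1)`, so that `rho = rr (k - 3)` -/
def rr (W : WSys k Γ F) (n : ℕ) : Γ := W.lam 2 * W.up 2 n

theorem rho_eq (W : WSys k Γ F) : W.rho = W.rr (k - 3) := rfl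

theorem rr_succ (W : WSys k Γ F) (n : ℕ) : W.rr (n + 1) = W.rr n * W.s (n + 2) := by
  unfold rr
  rw [up_succ, mul_assoc, Nat.add_comm 2 n]

/-- `s j` commutes with `rr n` for `n + 3 ≤ j` -/
theorem s_commute_rr (W : WSys k Γ F) (n j : ℕ) (hj : n + 3 ≤ j) (hjk : j + 1 < k) :
    Commute (W.s j) (W.rr n) :=
  (W.lam_commute_far 2 j (by omega) hjk).symm.mul_right
    (W.commute_upR 2 n fun l _ h2 => (W.commute_s l j (by omega) hjk).symm)

theorem rr_mul_s (W : WSys k Γ F) (n i : ℕ) (hi : 2 ≤ i) (hin : i ≤ n) (hn : n + 3 ≤ k) :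
    W.rr n * W.s i = W.s (i + 1) * W.rr n := by
  have h := W.up_mul_s 2 n i hi (by omega) (by omega)
  have hc : Commute (W.lam 2) (W.s (i + 1)) := W.lam_commute_far 2 (i + 1) (by omega) (by omega)
  unfold rr
  rw [mul_assoc, h, ← mul_assoc, hc.eq, mul_assoc]

/-- `rho` shifts the letters -/
theorem rho_mul_s (W : WSys k Γ F) (i : ℕ) (hi : 2 ≤ i) (hk : i + 2 < k) :
    W.rho * W.s i = W.s (i + 1) * W.rho :=
  W.rr_mul_s (k - 3) i hi (by omega) (by omega)

/-- `dr i n = s (i + n - 1) * ... * s i` -/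
def dr (W : WSys k Γ F) (i : ℕ) : ℕ → Γ
  | 0 => 1
  | (n + 1) => W.s (i + n) * dr W i n

theorem dr_succ (W : WSys k Γ F) (i n : ℕ) : W.dr i (n + 1) = W.s (i + n) * W.dr i n := rfl

theorem dr_succ' (W : WSys k Γ F) (i n : ℕ) : W.dr i (n + 1) = W.dr (i + 1) n * W.s i := by
  induction n with
  | zero => simp [dr]
  | succ n ih =>
    rw [dr_succ, ih, dr_succ, mul_assoc]
    congr 2
    omega

theorem commute_dr (W : WSys k Γ F) {t : Γ} (i n : ℕ) (h : ∀ j, i ≤ j → j < i + n → Commute t (W.s j)) :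
    Commute t (W.dr i n) := by
  induction n with
  | zero => exact Commute.one_right t
  | succ n ih =>
    rw [dr_succ]
    exact (h (i + n) (by omega) (by omega)).mul_right (ih fun j h1 h2 => h j h1 (by omega))

/-- `lam (n + 2) = s (n + 1) * ... * s 2 * lam 2 * s 2 * ... * s (n + 1)` -/
theorem lam_eq_dr (W : WSys k Γ F) (n : ℕ) : W.lam (n + 2) = W.dr 2 n * W.lam 2 * W.up 2 n := by
  induction n with
  | zero => simp [dr, up]
  | succ n ih =>
    have e : n + 1 + 2 = n + 2 + 1 := by omega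
    rw [e, W.lam_step (n + 2), ih, dr_succ, up_succ, Nat.add_comm 2 n]
    simp only [mul_assoc]

/-- shift of `dr` -/
theorem dr_mul_rr (W : WSys k Γ F) (n i j : ℕ) (hi : 2 ≤ i) (hin : i + j ≤ n + 1) (hn : n + 3 ≤ k) :
    W.dr (i + 1) j * W.rr n = W.rr n * W.dr i j := by
  induction j with
  | zero => simp [dr]
  | succ j ih =>
    have h := W.rr_mul_s n (i + j) (by omega) (by omega) hn
    have e : i + 1 + j = i + j + 1 := by omega
    rw [dr_succ, mul_assoc, ih (by omega), ← mul_assoc, e, ← h, mul_assoc, ← dr_succ]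

/-- `rr (n+1) ^ j = rr n ^ j * s (n+2) * ... ` -/
theorem rr_pow (W : WSys k Γ F) (n : ℕ) (hn : n + 4 ≤ k) (j : ℕ) (hj : j ≤ n + 1) (i : ℕ) (hij : i + j = n + 3) :
    W.rr (n + 1) ^ j = W.rr n ^ j * W.dr i j := by
  induction j generalizing i with
  | zero => simp [dr]
  | succ j ih =>
    rw [pow_succ, ih (by omega) (i + 1) (by omega), pow_succ]
    suffices h : W.dr (i + 1) j * W.rr (n + 1) = W.rr n * W.dr i (j + 1) by
      rw [mul_assoc, h, ← mul_assoc]
    rcases j with _ | j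
    · obtain rfl : i = n + 2 := by omega
      rw [rr_succ]
      simp [dr]
    · obtain ⟨n, rfl⟩ : ∃ m, n = m + 1 := ⟨n - 1, by omega⟩
      have e1 : i + 1 + j = n + 3 := by omega
      have e2 : i + (j + 1) = n + 3 := by omega
      have e3 : i + j = n + 2 := by omega
      have h1 := W.dr_mul_rr (n + 1) i j (by omega) (by omega) (by omega)
      have h2 : Commute (W.s (n + 3)) (W.rr n) := W.s_commute_rr n (n + 3) le_rfl (by omega)
      have h3 : Commute (W.s (n + 3)) (W.dr i j) :=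
        W.commute_dr i j fun l _ h => (W.commute_s l (n + 3) (by omega) (by omega)).symm
      have hb := W.braid (n + 2) (by omega)
      rw [dr_succ, e1, W.rr_succ (n + 1), dr_succ, dr_succ, e2, e3]
      calc W.s (n + 3) * W.dr (i + 1) j * (W.rr (n + 1) * W.s (n + 1 + 2))
          = W.s (n + 3) * (W.dr (i + 1) j * W.rr (n + 1)) * W.s (n + 3) := by simp only [mul_assoc]
        _ = W.s (n + 3) * (W.rr (n + 1) * W.dr i j) * W.s (n + 3) := by rw [h1]
        _ = W.s (n + 3) * (W.rr n * W.s (n + 2) * W.dr i j) * W.s (n + 3) := by rw [W.rr_succ n]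
        _ = (W.s (n + 3) * W.rr n) * W.s (n + 2) * (W.dr i j * W.s (n + 3)) := by simp only [mul_assoc]
        _ = (W.rr n * W.s (n + 3)) * W.s (n + 2) * (W.s (n + 3) * W.dr i j) := by rw [h2.eq, h3.eq]
        _ = W.rr n * (W.s (n + 3) * W.s (n + 2) * W.s (n + 3)) * W.dr i j := by simp only [mul_assoc]
        _ = W.rr n * (W.s (n + 2) * W.s (n + 3) * W.s (n + 2)) * W.dr i j := by rw [← hb]
        _ = W.rr n * W.s (n + 2) * (W.s (n + 3) * (W.s (n + 2) * W.dr i j)) := by simp only [mul_assoc]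
        _ = W.rr (n + 1) * (W.s (n + 3) * (W.s (n + 2) * W.dr i j)) := by rw [W.rr_succ n]

theorem rr_pow_succ (W : WSys k Γ F) (n : ℕ) (hn : n + 4 ≤ k) :
    W.rr (n + 1) ^ (n + 2) = W.rr n ^ (n + 1) * W.lam (n + 3) := by
  rw [pow_succ, W.rr_pow n hn (n + 1) le_rfl 2 (by omega), W.lam_eq_dr (n + 1)]
  unfold rr
  simp only [mul_assoc]

/-- `rr n ^ (n + 1) = T (n + 3) * (T 2)⁻¹` -/
theorem rr_pow_eq (W : WSys k Γ F) (n : ℕ) (hn : n + 3 ≤ k) :
    W.rr n ^ (n + 1) = (W.T 2)⁻¹ * W.T (n + 3) := by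
  induction n with
  | zero =>
    have e : (0 : ℕ) + 3 = 2 + 1 := rfl
    rw [e, W.T_step 2]
    simp [rr, up]
  | succ n ih =>
    have e : n + 1 + 3 = n + 3 + 1 := by omega
    rw [W.rr_pow_succ n (by omega), ih (by omega), e, W.T_step (n + 3)]
    simp only [mul_assoc]

/-- `rho ^ (k - 2) = T k * (T 2)⁻¹` -/
theorem rho_pow (W : WSys k Γ F) (hk : 3 ≤ k) : W.rho ^ (k - 2) = W.T k * (W.T 2)⁻¹ := by
  have h := W.rr_pow_eq (k - 3) (by omega)
  have e1 : k - 3 + 1 = k - 2 := by omega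
  have e2 : k - 3 + 3 = k := by omega
  rw [e1, e2] at h
  rw [W.rho_eq, h]
  exact ((W.T_commute_T 2 k (by omega) le_rfl).inv_left).eq

theorem rho_mem_L (W : WSys k Γ F) : W.rho ∈ W.L := by
  refine mul_mem W.lam2_mem_L ?_
  have h : ∀ n, n + 3 ≤ k → W.up 2 n ∈ W.L := by
    intro n
    induction n with
    | zero => intro _; exact one_mem _
    | succ n ih =>
      intro h
      rw [up_succ]
      exact mul_mem (ih (by omega)) (W.s_mem_L (by omega) (by omega))
  rcases Nat.lt_or_ge k 3 with h3 | h3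
  · have e : k - 3 = 0 := by omega
    rw [e]
    exact one_mem _
  · exact h (k - 3) (by omega)

/-- `rho ^ (k - 2)` commutes with `L` -/
theorem L_commute_rho_pow (W : WSys k Γ F) (hk : 3 ≤ k) {g : Γ} (hg : g ∈ W.L) :
    Commute g (W.rho ^ (k - 2)) := by
  rw [W.rho_pow hk, W.T_two_mul]
  have h0 := W.L_commute_s0 (by omega) hg
  exact (W.L_commute_Tk (by omega) hg).mul_right (h0.mul_right h0).inv_right

theorem rho_commute_s0 (W : WSys k Γ F) (hk : 3 ≤ k) : Commute W.rho (W.s 0) :=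
  W.L_commute_s0 (by omega) W.rho_mem_L

/-! ### the polygon -/

/-- the side number `j` (from `0`) of the polygon around the double point -/
def a (W : WSys k Γ F) (j : ℕ) : Γ := W.rho ^ j * W.s 2 * (W.rho ^ j)⁻¹

theorem a_zero (W : WSys k Γ F) : W.a 0 = W.s 2 := by simp [a]

theorem a_add (W : WSys k Γ F) (i j : ℕ) : W.a (i + j) = W.rho ^ i * W.a j * (W.rho ^ i)⁻¹ := by
  unfold a
  rw [pow_add]
  group

theorem a_succ (W : WSys k Γ F) (j : ℕ) : W.a (j + 1) = W.rho * W.a j * W.rho⁻¹ := by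
  rw [Nat.add_comm j 1, W.a_add 1 j, pow_one]

theorem a_mem_L (W : WSys k Γ F) (hk : 4 ≤ k) (j : ℕ) : W.a j ∈ W.L :=
  mul_mem (mul_mem (pow_mem W.rho_mem_L j) (W.s_mem_L le_rfl (by omega))) (inv_mem (pow_mem W.rho_mem_L j))

theorem a_eq_s (W : WSys k Γ F) (j : ℕ) (hj : j + 3 < k) : W.a j = W.s (j + 2) := by
  induction j with
  | zero => exact W.a_zero
  | succ j ih =>
    rw [W.a_succ, ih (by omega), W.rho_mul_s (j + 2) (by omega) (by omega)]
    have e : j + 1 + 2 = j + 2 + 1 := by omega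
    rw [e]
    group

theorem a_one (W : WSys k Γ F) (hk : 5 ≤ k) : W.a 1 = W.s 3 := W.a_eq_s 1 (by omega)

/-- periodicity -/
theorem a_add_period (W : WSys k Γ F) (hk : 4 ≤ k) (j : ℕ) : W.a (j + (k - 2)) = W.a j := by
  have hc := (W.L_commute_rho_pow (by omega) (W.a_mem_L hk j)).eq
  rw [Nat.add_comm j, W.a_add (k - 2) j, ← hc]
  group

theorem a_period (W : WSys k Γ F) (hk : 4 ≤ k) : W.a (k - 2) = W.s 2 := by
  have h := W.a_add_period hk 0
  rwa [Nat.zero_add, W.a_zero] at h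

theorem a_mod (W : WSys k Γ F) (hk : 4 ≤ k) (j : ℕ) : W.a (j % (k - 2)) = W.a j := by
  have h : ∀ q r : ℕ, W.a (r + (k - 2) * q) = W.a r := by
    intro q r
    induction q with
    | zero => simp
    | succ q ih => rw [Nat.mul_succ, ← Nat.add_assoc, W.a_add_period hk, ih]
  have h1 := h (j / (k - 2)) (j % (k - 2))
  rw [Nat.mod_add_div] at h1
  exact h1.symm

/-- the last side -/
theorem a_last (W : WSys k Γ F) (hk : 4 ≤ k) : W.a (k - 3) = W.rho⁻¹ * W.s 2 * W.rho := by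
  have h := W.a_succ (k - 3)
  have e : k - 3 + 1 = k - 2 := by omega
  rw [e, W.a_period hk] at h
  rw [h]
  group

/-- braid relation of neighbouring sides -/
theorem a_braid (W : WSys k Γ F) (hk : 5 ≤ k) (j : ℕ) :
    W.a j * W.a (j + 1) * W.a j = W.a (j + 1) * W.a j * W.a (j + 1) := by
  have hb := W.braid 2 (by omega)
  have e : W.a (j + 1) = W.rho ^ j * W.s 3 * (W.rho ^ j)⁻¹ := by
    rw [W.a_add j 1, W.a_one hk]
  rw [e]
  unfold a
  calc W.rho ^ j * W.s 2 * (W.rho ^ j)⁻¹ * (W.rho ^ j * W.s 3 * (W.rho ^ j)⁻¹) *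
        (W.rho ^ j * W.s 2 * (W.rho ^ j)⁻¹)
      = W.rho ^ j * (W.s 2 * W.s 3 * W.s 2) * (W.rho ^ j)⁻¹ := by group
    _ = W.rho ^ j * (W.s 3 * W.s 2 * W.s 3) * (W.rho ^ j)⁻¹ := by rw [hb]
    _ = _ := by group

theorem a_commute_s0 (W : WSys k Γ F) (hk : 4 ≤ k) (j : ℕ) : Commute (W.a j) (W.s 0) :=
  W.L_commute_s0 (by omega) (W.a_mem_L hk j)

/-- all sides are conjugate to `s 2` in `L` -/
theorem rho_conj_a (W : WSys k Γ F) (j : ℕ) : W.rho * W.a j * W.rho⁻¹ = W.a (j + 1) := (W.a_succ j).symm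

/-! ### generators of `L` -/

theorem lam2_eq_rho (W : WSys k Γ F) : W.lam 2 = W.rho * (W.up 2 (k - 3))⁻¹ := by
  unfold rho
  group

/-- `L` is generated by `s 0`, `rho`, `s 2` -/
theorem L_le_closure (W : WSys k Γ F) : W.L ≤ Subgroup.closure {W.s 0, W.rho, W.s 2} := by
  have h0 : W.s 0 ∈ Subgroup.closure {W.s 0, W.rho, W.s 2} := Subgroup.subset_closure (by simp)
  have hr : W.rho ∈ Subgroup.closure {W.s 0, W.rho, W.s 2} := Subgroup.subset_closure (by simp)
  have h2 : W.s 2 ∈ Subgroup.closure {W.s 0, W.rho, W.s 2} := Subgroup.subset_closure (by simp)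
  have hs : ∀ i, 2 ≤ i → i + 1 < k → W.s i ∈ Subgroup.closure {W.s 0, W.rho, W.s 2} := by
    intro i hi hik
    obtain ⟨j, rfl⟩ : ∃ j, i = j + 2 := ⟨i - 2, by omega⟩
    rw [← W.a_eq_s j (by omega)]
    exact mul_mem (mul_mem (pow_mem hr j) h2) (inv_mem (pow_mem hr j))
  have hu : ∀ n, n + 3 ≤ k → W.up 2 n ∈ Subgroup.closure {W.s 0, W.rho, W.s 2} := by
    intro n
    induction n with
    | zero => intro _; exact one_mem _
    | succ n ih =>
      intro h
      rw [up_succ]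
      exact mul_mem (ih (by omega)) (hs _ (by omega) (by omega))
  have hu' : W.up 2 (k - 3) ∈ Subgroup.closure {W.s 0, W.rho, W.s 2} := by
    rcases Nat.lt_or_ge k 3 with h3 | h3
    · have e : k - 3 = 0 := by omega
      rw [e]
      exact one_mem _
    · exact hu (k - 3) (by omega)
  refine (Subgroup.closure_le _).2 ?_
  rintro x ((rfl | rfl) | ⟨i, hi, hik, rfl⟩)
  · exact h0
  · show W.lam 2 ∈ _
    rw [W.lam2_eq_rho]
    exact mul_mem hr (inv_mem hu')
  · exact hs i hi hik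

theorem L_eq_closure (W : WSys k Γ F) (hk : 4 ≤ k) : W.L = Subgroup.closure {W.s 0, W.rho, W.s 2} := by
  refine le_antisymm W.L_le_closure ((Subgroup.closure_le _).2 ?_)
  rintro x (rfl | rfl | rfl)
  · exact W.s0_mem_L
  · exact W.rho_mem_L
  · exact W.s_mem_L le_rfl (by omega)

/-- induction over `L` with the generators `s 0`, `rho`, `s 2` -/
theorem L_induction_rho (W : WSys k Γ F) {P : Γ → Prop} (h0 : P (W.s 0)) (hr : P W.rho) (h2 : P (W.s 2))
    (h1 : P 1) (hmul : ∀ x y, P x → P y → P (x * y)) (hinv : ∀ x, P x → P x⁻¹) {g : Γ} (hg : g ∈ W.L) : P g := by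
  refine Subgroup.closure_induction (p := fun g _ => P g) ?_ h1 (fun x y _ _ h h' => hmul x y h h')
    (fun x _ h => hinv x h) (W.L_le_closure hg)
  rintro x (rfl | rfl | rfl)
  · exact h0
  · exact hr
  · exact h2

/-! ### `T 4` and `rho` -/

theorem T_four (W : WSys k Γ F) : W.T 4 = W.T 2 * (W.lam 2 * W.s 2) ^ 2 := by
  have e : (4 : ℕ) = 2 + 1 + 1 := rfl
  rw [e, W.T_step (2 + 1), W.T_step 2, W.lam_step 2, pow_two]
  simp only [mul_assoc]

theorem rho_mul_up3 (W : WSys k Γ F) (hk : 4 ≤ k) : W.rho * (W.up 3 (k - 4))⁻¹ = W.lam 2 * W.s 2 := by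
  have e : k - 3 = k - 4 + 1 := by omega
  unfold rho
  rw [e, up_succ']
  group

/-- `rho⁻¹ * T 4 * rho = g * T 4 * g⁻¹` with `g = (up 3 (k - 4))⁻¹` -/
theorem rho_inv_T4 (W : WSys k Γ F) (hk : 4 ≤ k) :
    W.rho⁻¹ * W.T 4 * W.rho = (W.up 3 (k - 4))⁻¹ * W.T 4 * W.up 3 (k - 4) := by
  have hc : Commute (W.lam 2 * W.s 2) (W.T 4) := by
    refine W.Bm_commute_T hk (mul_mem ?_ (W.s_mem_Bm (by omega)))
    exact W.Bm_mono (by omega) (W.lam_mem_Bm 2)
  have h := W.rho_mul_up3 hk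
  have e : W.rho = W.lam 2 * W.s 2 * W.up 3 (k - 4) := by
    rw [← h]
    group
  rw [e]
  calc (W.lam 2 * W.s 2 * W.up 3 (k - 4))⁻¹ * W.T 4 * (W.lam 2 * W.s 2 * W.up 3 (k - 4))
      = (W.up 3 (k - 4))⁻¹ * (W.lam 2 * W.s 2)⁻¹ * (W.T 4 * (W.lam 2 * W.s 2)) * W.up 3 (k - 4) := by group
    _ = (W.up 3 (k - 4))⁻¹ * (W.lam 2 * W.s 2)⁻¹ * ((W.lam 2 * W.s 2) * W.T 4) * W.up 3 (k - 4) := by
        rw [hc.eq]
    _ = _ := by group

/-- `rho * T 4 * rho⁻¹ = (s 3 * s 2)⁻¹ * T 4 * (s 3 * s 2)` -/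
theorem rho_T4 (W : WSys k Γ F) (hk : 5 ≤ k) :
    W.rho * W.T 4 * W.rho⁻¹ = (W.s 2)⁻¹ * (W.s 3)⁻¹ * W.T 4 * W.s 3 * W.s 2 := by
  have e : k - 3 = k - 5 + 1 + 1 := by omega
  have h4 : Commute (W.T 4) (W.up 4 (k - 5)) :=
    W.commute_upR 4 (k - 5) fun j h1 h2 => W.T_commute_far 4 j h1 (by omega)
  have hl : Commute (W.T 4) (W.lam 4) := W.T_commute_lam 4 4 le_rfl (by omega)
  have e4 : W.lam 4 = W.s 3 * W.s 2 * W.lam 2 * W.s 2 * W.s 3 := by
    have e' : (4 : ℕ) = 2 + 1 + 1 := rfl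
    rw [e', W.lam_step (2 + 1), W.lam_step 2]
    simp only [mul_assoc]
  have er : W.rho = W.lam 2 * W.s 2 * W.s 3 * W.up 4 (k - 5) := by
    unfold rho
    rw [e, up_succ', up_succ']
    simp only [mul_assoc]
  rw [er]
  calc W.lam 2 * W.s 2 * W.s 3 * W.up 4 (k - 5) * W.T 4 * (W.lam 2 * W.s 2 * W.s 3 * W.up 4 (k - 5))⁻¹
      = W.lam 2 * W.s 2 * W.s 3 * (W.up 4 (k - 5) * W.T 4) * (W.up 4 (k - 5))⁻¹ *
        (W.lam 2 * W.s 2 * W.s 3)⁻¹ := by group
    _ = W.lam 2 * W.s 2 * W.s 3 * (W.T 4 * W.up 4 (k - 5)) * (W.up 4 (k - 5))⁻¹ *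
        (W.lam 2 * W.s 2 * W.s 3)⁻¹ := by rw [h4.eq]
    _ = (W.s 2)⁻¹ * (W.s 3)⁻¹ * ((W.s 3 * W.s 2 * W.lam 2 * W.s 2 * W.s 3) * W.T 4) *
        (W.lam 2 * W.s 2 * W.s 3)⁻¹ := by group
    _ = (W.s 2)⁻¹ * (W.s 3)⁻¹ * (W.T 4 * (W.s 3 * W.s 2 * W.lam 2 * W.s 2 * W.s 3)) *
        (W.lam 2 * W.s 2 * W.s 3)⁻¹ := by rw [← e4, hl.eq]
    _ = _ := by group

/-! ### the permutation of `rho` -/

theorem lab_lam2 (W : WSys k Γ F) (hk : 3 ≤ k) : W.lab (W.lam 2) = 1 := by
  have e : W.lam 2 = W.s 1 * (W.s 0 * W.s 0) * W.s 1 := rfl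
  rw [e]
  simp only [map_mul, W.lab_s 0 (by omega), W.lab_s 1 (by omega), Equiv.swap_mul_self, mul_one]

theorem lab_up (W : WSys k Γ F) (i n : ℕ) (hn : i + n < k) (x : ℕ) :
    W.lab (W.up i n) x = if x < i then x else if x < i + n then x + 1 else if x = i + n then i else x := by
  induction n generalizing x with
  | zero =>
    rw [up_zero, map_one, Equiv.Perm.one_apply]
    split_ifs <;> omega
  | succ n ih =>
    rw [up_succ, map_mul, Equiv.Perm.mul_apply, W.lab_s (i + n) (by omega), ih (by omega)]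
    rcases eq_or_ne x (i + n) with h | h
    · subst h
      rw [Equiv.swap_apply_left]
      split_ifs <;> omega
    · rcases eq_or_ne x (i + n + 1) with h' | h'
      · subst h'
        rw [Equiv.swap_apply_right]
        split_ifs <;> omega
      · rw [Equiv.swap_apply_of_ne_of_ne h h']
        split_ifs <;> omega

/-- `rho` moves the point `x` to `x + 1` (`2 ≤ x < k - 1`), `k - 1` to `2` and fixes all others -/
theorem lab_rho (W : WSys k Γ F) (hk : 3 ≤ k) (x : ℕ) :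
    W.lab W.rho x = if x < 2 then x else if x < k - 1 then x + 1 else if x = k - 1 then 2 else x := by
  unfold rho
  rw [map_mul, W.lab_lam2 hk, one_mul, W.lab_up 2 (k - 3) (by omega)]
  have e : 2 + (k - 3) = k - 1 := by omega
  rw [e]

theorem lab_rho_lt (W : WSys k Γ F) (x : ℕ) (h2 : 2 ≤ x) (hx : x + 1 < k) : W.lab W.rho x = x + 1 := by
  rw [W.lab_rho (by omega)]
  split_ifs <;> omega

theorem lab_rho_last (W : WSys k Γ F) (hk : 3 ≤ k) : W.lab W.rho (k - 1) = 2 := by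
  rw [W.lab_rho (by omega)]
  split_ifs <;> omega

/-- the permutation of the side `a j` -/
theorem lab_a (W : WSys k Γ F) (j : ℕ) (hj : j + 3 < k) : W.lab (W.a j) = Equiv.swap (j + 2) (j + 3) := by
  rw [W.a_eq_s j hj, W.lab_s (j + 2) (by omega)]

/-- the permutation of the last side -/
theorem lab_a_last (W : WSys k Γ F) (hk : 5 ≤ k) : W.lab (W.a (k - 3)) = Equiv.swap (k - 1) 2 := by
  have h2 : W.lab W.rho (k - 1) = 2 := W.lab_rho_last (by omega)
  have h3 : W.lab W.rho 2 = 3 := W.lab_rho_lt 2 le_rfl (by omega)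
  have hs : W.lab (W.s 2) = Equiv.swap 2 3 := W.lab_s 2 (by omega)
  have e : W.lab (W.s 2) = W.lab W.rho * Equiv.swap (k - 1) 2 * (W.lab W.rho)⁻¹ := by
    rw [hs, ← Equiv.swap_apply_apply, h2, h3]
  rw [W.a_last (by omega), map_mul, map_mul, map_inv, e]
  group

theorem lab_s_mem (W : WSys k Γ F) (i : ℕ) (hi : 2 ≤ i) (hik : i + 1 < k) (x : ℕ) (h : 2 ≤ x ∧ x < k) :
    2 ≤ W.lab (W.s i) x ∧ W.lab (W.s i) x < k := by
  rw [W.lab_s i hik, Equiv.swap_apply_def]
  split_ifs <;> omega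

end WSys

end LN6
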